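import Pool.Agent.Run7.h987.RT.Iface

set_option autoImplicit false

open MeasureTheory Set SchwartzMap
open scoped FourierTransform SchwartzMap ContDiff Pointwise Topology ENNReal

noncomputable section

namespace Run7.h592.RT

open Pool.Agent.Run7.h987.BL Pool.Agent.Run7.h987.RT

universe u

theorem norm_le_of_abs {k : ℕ} (hk : 0 < k) (v : E k) (c : ℝ) (hc : 0 ≤ c)
    (h : ∀ i, |v i| ≤ c) : ‖v‖ ≤ k * c := by
  have h1 : ‖v‖ ^ 2 ≤ (k * c) ^ 2 := by
    rw [EuclideanSpace.norm_sq_eq]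
    have h2 : ∑ i : Fin k, ‖v i‖ ^ 2 ≤ ∑ _i : Fin k, c ^ 2 := by
      apply Finset.sum_le_sum
      intro i _
      rw [Real.norm_eq_abs]
      exact pow_le_pow_left₀ (abs_nonneg _) (h i) 2
    refine h2.trans ?_
    rw [Finset.sum_const, Finset.card_univ, Fintype.card_fin, nsmul_eq_mul, mul_pow]
    have h3 : (1 : ℝ) ≤ k := by exact_mod_cast hk
    have h4 : (k : ℝ) ≤ (k : ℝ) ^ 2 := by nlinarith
    exact mul_le_mul_of_nonneg_right h4 (sq_nonneg c)
  exact abs_le_of_sq_le_sq' h1 (by positivity) |>.2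

theorem t_MARKENC : P_MARKENC.{u} := by
  intro k hk U hU hne
  obtain ⟨p, hp⟩ := hne
  obtain ⟨δ, hδ, hball⟩ := Metric.isOpen_iff.mp hU p hp
  let f : ContDiffBump (0 : E k) := ⟨δ / 4, δ / 2, by positivity, by linarith⟩
  have hfo : f.rOut = δ / 2 := rfl
  obtain ⟨R, hR⟩ := exists_params f
  obtain ⟨C, hC0, hC⟩ := car_bound f
  refine ⟨2 * R * k + 1, by positivity, ?_⟩
  intro X _ _ _ N L h hact hN hh hcfg
  let a : X → Zk k → ℝ := fun x n => h (n +ᵥ x)
  have hcfg' : ∀ x, Cfg N L (a x) := hcfg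
  have ha1 : ∀ x m, |a x m| ≤ 1 := fun x m =>
    abs_le.mpr ⟨by linarith [(hcfg' x).nonneg m], (hcfg' x).le_one m⟩
  have hsparse : ∀ x m m', m ≠ m' → a x m ≠ 0 → a x m' ≠ 0 →
      ¬ ∀ i, |m i - m' i| < ((2 * R : ℕ) : ℤ) := by
    intro x m m' hmm h1 h2 h3
    have h4 := (hcfg' x).sep m m' hmm (lt_of_le_of_ne ((hcfg' x).nonneg m) (Ne.symm h1))
      (lt_of_le_of_ne ((hcfg' x).nonneg m') (Ne.symm h2))
    have h5 : ‖(vec m - vec m' : E k)‖ ≤ k * (2 * R) := by
      apply norm_le_of_abs hk _ _ (by positivity)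
      intro i
      have h6 := (h3 i).le
      have h7 : |((m i : ℝ) - m' i)| ≤ 2 * R := by exact_mod_cast h6
      simpa using h7
    linarith [mul_comm (k : ℝ) (2 * R)]
  obtain ⟨c, hc⟩ : ∃ c : ℝ, c = (C + 1)⁻¹ := ⟨_, rfl⟩
  have hc0 : 0 < c := by rw [hc]; positivity
  have hcc : (c : ℂ) ≠ 0 := by exact_mod_cast hc0.ne'
  have hcont : Continuous fun z : X × E k => (c : ℂ) * car f p (a z.1) z.2 := by
    apply continuous_const.mul
    exact car_continuous f p (fun m x => h (m +ᵥ x)) (fun m => hh.comp (hact m))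
      (fun m x => ha1 x m)
  have hcont1 : ∀ x, Continuous fun t : E k => (c : ℂ) * car f p (a x) t := fun x =>
    continuous_const.mul (car_cont f p (a x) (ha1 x))
  refine ⟨Metric.closedBall p (δ / 2), fun x => ⟨fun t => (c : ℂ) * car f p (a x) t, hcont1 x⟩,
    isCompact_closedBall _ _, ?_, ⟨?_, ?_, ?_, ?_⟩, ?_⟩
  · exact (Metric.closedBall_subset_ball (by linarith)).trans hball
  · exact ContinuousMap.continuous_of_continuous_uncurry _ hcont
  · intro x t
    change ‖(c : ℂ) * car f p (a x) t‖ ≤ 1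
    rw [norm_mul, Complex.norm_real, Real.norm_eq_abs, abs_of_pos hc0, hc]
    rw [inv_mul_le_iff₀ (by positivity)]
    linarith [hC p (a x) (ha1 x) t]
  · intro x
    have h1 : SpecIn (fun t => car f p (a x) t * (1 : ℂ)) (Metric.closedBall p (δ / 2)) := by
      refine specIn_car f p (ha1 x) (w := fun _ => (1 : ℂ)) (C := 1)
        ⟨continuous_const, fun t => by simp⟩ specIn_one ?_
      rintro y rfl b hb
      rw [hfo, Metric.mem_closedBall, dist_zero_right] at hb
      rw [Metric.mem_closedBall, dist_eq_norm]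
      have e : (0 : E k) + p - b - p = -b := by abel
      rw [e, norm_neg]
      exact hb
    intro u hu
    have h2 := h1 u hu
    change ∫ t, (c : ℂ) * car f p (a x) t * 𝓕 u t = 0
    simp only [mul_one] at h2
    simp only [mul_assoc]
    rw [integral_const_mul, h2, mul_zero]
  · intro q x t
    change (c : ℂ) * car f p (fun m => h (m +ᵥ (q +ᵥ x))) t =
      (c : ℂ) * car f p (fun m => h (m +ᵥ x)) (t + vec q)
    rw [car_shift f p h q x t]
  · intro x y hxy n
    have h0 : ∀ t, car f p (fun m => a x m - a y m) t = 0 := by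
      intro t
      rw [car_sub f p (ha1 x) (ha1 y)]
      have h1 : (c : ℂ) * car f p (a x) t = (c : ℂ) * car f p (a y) t :=
        congrArg (fun g : C(E k, ℂ) => g t) hxy
      rw [mul_left_cancel₀ hcc h1, sub_self]
    have h1 : ∀ m, |a x m - a y m| ≤ 1 := by
      intro m
      have h2 := (hcfg' x).nonneg m
      have h3 := (hcfg' y).nonneg m
      have h4 := (hcfg' x).le_one m
      have h5 := (hcfg' y).le_one m
      rw [abs_le]
      constructor <;> linarith
    have h2 := hR p (fun m => a x m - a y m) h1 (sep_diff (hsparse x) (hsparse y)) h0 n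
    exact sub_eq_zero.mp h2

end Run7.h592.RT
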