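import Pool.Agent.Run7.h987.RT.Iface

set_option autoImplicit false

open MeasureTheory Set SchwartzMap
open scoped FourierTransform SchwartzMap ContDiff Pointwise Topology ENNReal

noncomputable section

namespace Run7.h592.RT

open Pool.Agent.Run7.h987.BL Pool.Agent.Run7.h987.RT

universe u

theorem clamp_continuous : Continuous clamp := by
  unfold clamp
  fun_prop

theorem clamp_one {y : ℝ} (h : 1 ≤ y) : clamp y = 1 := by
  unfold clamp
  rw [min_eq_left h]
  exact max_eq_right zero_le_one

theorem clamp_zero {y : ℝ} (h : y ≤ 0) : clamp y = 0 := by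
  unfold clamp
  rw [min_eq_right (h.trans zero_le_one), max_eq_left h]

theorem ht_large {α B : ℝ} (hα : 0 < α) (hB : 0 ≤ B) (h : α ≤ 1 / (B + 1)) : B ≤ ht α := by
  unfold ht
  have h1 : B + 1 ≤ α⁻¹ := by
    rw [le_inv_comm₀ (by linarith) hα]
    simpa [one_div] using h
  linarith

theorem t_WTC : P_WTC.{u} := by
  intro k X _ a N L Rb Λ H θ hN hH hC ha hL n v
  classical
  by_cases hv : Λ < ‖v‖
  · have : (fun x => wgt (a x) Rb Λ H θ n v) = fun _ => (0 : ℝ) := by
      funext x
      unfold wgt
      rw [if_pos (Or.inr hv)]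
    rw [this]
    exact continuous_const
  rw [continuous_iff_continuousAt]
  intro x0
  have hvΛ : ‖v‖ ≤ Λ := not_lt.mp hv
  by_cases hn : a x0 n = 0
  · -- the weight is eventually zero
    obtain ⟨m0, hm1, hm2⟩ := (hC x0).cov (vec n + v)
    have hne : m0 ≠ n := by
      rintro rfl
      rw [hn] at hm1
      exact zero_ne_one hm1
    have hdist : ‖(vec m0 - vec n : E k)‖ ≤ Rb := by
      have e : (vec m0 - vec n : E k) = (vec m0 - (vec n + v)) + v := by abel
      rw [e]
      refine (norm_add_le _ _).trans ?_
      linarith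
    have hmem : m0 ∈ nb Rb n := by
      unfold nb
      rw [Finset.mem_erase, Finset.mem_Icc]
      have hi : ∀ i, |((m0 i : ℝ) - n i)| ≤ Rb := by
        intro i
        have h1 : |(vec m0 - vec n : E k) i| ≤ ‖(vec m0 - vec n : E k)‖ := by
          rw [← Real.norm_eq_abs]
          exact PiLp.norm_apply_le _ i
        exact h1.trans hdist
      refine ⟨hne, fun i => ?_, fun i => ?_⟩
      · have h1 := (abs_le.mp (hi i)).1
        have h2 : ((n i : ℝ) - Rb) ≤ m0 i := by linarith
        exact_mod_cast h2
      · have h1 := (abs_le.mp (hi i)).2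
        have h2 : (m0 i : ℝ) ≤ n i + Rb := by linarith
        exact_mod_cast h2
    have hD : 0 < 2 * ‖(vec m0 - vec n : E k)‖ := by
      have : (vec m0 - vec n : E k) ≠ 0 := by
        rw [← vec_sub]
        exact vec_ne_zero (sub_ne_zero.mpr hne)
      positivity
    obtain ⟨B, hB⟩ : ∃ B : ℝ, B = max 1 (‖vec n + v - vec m0‖ ^ 2 + (1 + H) ^ 2 +
        |θ| * (2 * ‖(vec m0 - vec n : E k)‖)) := ⟨_, rfl⟩
    have hB1 : 1 ≤ B := hB ▸ le_max_left _ _
    have hB2 : ‖vec n + v - vec m0‖ ^ 2 + (1 + H) ^ 2 +
        |θ| * (2 * ‖(vec m0 - vec n : E k)‖) ≤ B := hB ▸ le_max_right _ _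
    have ev1 : ∀ᶠ x in 𝓝 x0, a x n < 1 / (B + 1) := by
      apply (ha n).continuousAt.eventually_lt continuousAt_const
      rw [hn]
      positivity
    have ev2 : ∀ᶠ x in 𝓝 x0, 1 / 2 < a x m0 := by
      apply continuousAt_const.eventually_lt (ha m0).continuousAt
      rw [hm1]
      norm_num
    have ev : ∀ᶠ x in 𝓝 x0, 0 = wgt (a x) Rb Λ H θ n v := by
      filter_upwards [ev1, ev2] with x h1 h2
      symm
      unfold wgt
      by_cases hxn : a x n = 0
      · rw [if_pos (Or.inl hxn)]
      · rw [if_neg (by push Not; exact ⟨hxn, hvΛ⟩)]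
        apply Finset.prod_eq_zero hmem
        rw [if_neg (by linarith)]
        apply clamp_zero
        have hxn' : 0 < a x n := lt_of_le_of_ne ((hC x).nonneg n) (Ne.symm hxn)
        have h3 : B ≤ ht (a x n) := ht_large hxn' (by linarith) h1.le
        have h4 : ht (a x m0) ≤ 1 := by
          unfold ht
          have : (a x m0)⁻¹ ≤ 2 := by
            rw [inv_le_comm₀ (by linarith) (by norm_num)]
            linarith
          linarith
        have h5 : 0 ≤ ht (a x m0) := by
          unfold ht
          have : 1 ≤ (a x m0)⁻¹ := (one_le_inv₀ (by linarith)).mpr ((hC x).le_one m0)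
          linarith
        unfold marg
        rw [sub_nonpos, div_le_iff₀ hD]
        have h6 : -(|θ| * (2 * ‖(vec m0 - vec n : E k)‖)) ≤ θ * (2 * ‖(vec m0 - vec n : E k)‖) := by
          have := mul_le_mul_of_nonneg_right (neg_abs_le θ) hD.le
          linarith
        have h7 : (ht (a x m0) + H) ^ 2 ≤ (1 + H) ^ 2 := by
          apply pow_le_pow_left₀ (by linarith)
          linarith
        have h8 : B ≤ (ht (a x n) + H) ^ 2 := by nlinarith
        have h9 : 0 ≤ ‖vec n + v - vec n‖ ^ 2 := by positivity
        linarith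
    have hx0 : wgt (a x0) Rb Λ H θ n v = 0 := by
      unfold wgt
      rw [if_pos (Or.inl hn)]
    exact (continuousAt_const (y := (0 : ℝ))).congr ev
  · have hn' : 0 < a x0 n := lt_of_le_of_ne ((hC x0).nonneg n) (Ne.symm hn)
    have evn : ∀ᶠ x in 𝓝 x0, 0 < a x n := continuousAt_const.eventually_lt
      (ha n).continuousAt hn'
    have hhtn : ContinuousAt (fun x => ht (a x n)) x0 := by
      unfold ht
      exact ((ha n).continuousAt.inv₀ hn).sub continuousAt_const
    have key : ContinuousAt (fun x => ∏ m ∈ nb Rb n,
        if a x m = 0 then 1 else clamp (marg (a x) H n m (vec n + v) - θ)) x0 := by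
      apply tendsto_finsetProd
      intro m hm
      have hne : m ≠ n := by
        unfold nb at hm
        exact (Finset.mem_erase.mp hm).1
      have hD : 0 < 2 * ‖(vec m - vec n : E k)‖ := by
        have : (vec m - vec n : E k) ≠ 0 := by
          rw [← vec_sub]
          exact vec_ne_zero (sub_ne_zero.mpr hne)
        positivity
      by_cases hm0 : a x0 m = 0
      · -- eventually one
        obtain ⟨C0, hC0⟩ : ∃ C0 : ℝ, C0 = ‖vec n + v - vec n‖ ^ 2 + (ht (a x0 n) + H) ^ 2 :=
          ⟨_, rfl⟩
        obtain ⟨B, hB⟩ : ∃ B : ℝ, B = max 1 (C0 + 1 +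
            |θ + 1| * (2 * ‖(vec m - vec n : E k)‖)) := ⟨_, rfl⟩
        have hB1 : 1 ≤ B := hB ▸ le_max_left _ _
        have hB2 : C0 + 1 + |θ + 1| * (2 * ‖(vec m - vec n : E k)‖) ≤ B := hB ▸ le_max_right _ _
        have ev1 : ∀ᶠ x in 𝓝 x0, a x m < 1 / (B + 1) := by
          apply (ha m).continuousAt.eventually_lt continuousAt_const
          rw [hm0]
          positivity
        have ev2 : ∀ᶠ x in 𝓝 x0, ‖vec n + v - vec n‖ ^ 2 + (ht (a x n) + H) ^ 2 < C0 + 1 := by
          apply ContinuousAt.eventually_lt (continuousAt_const.add ((hhtn.add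
            continuousAt_const).pow 2)) continuousAt_const
          rw [hC0]
          simp only [Pi.add_apply, Pi.pow_apply]
          linarith
        have ev : ∀ᶠ x in 𝓝 x0, 1 = (if a x m = 0 then 1 else
            clamp (marg (a x) H n m (vec n + v) - θ)) := by
          filter_upwards [ev1, ev2] with x h1 h2
          symm
          by_cases hxm : a x m = 0
          · rw [if_pos hxm]
          · rw [if_neg hxm]
            apply clamp_one
            have hxm' : 0 < a x m := lt_of_le_of_ne ((hC x).nonneg m) (Ne.symm hxm)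
            have h3 : B ≤ ht (a x m) := ht_large hxm' (by linarith) h1.le
            have h4 : θ + 1 ≤ marg (a x) H n m (vec n + v) := by
              unfold marg
              rw [le_div_iff₀ hD]
              have h6 : (θ + 1) * (2 * ‖(vec m - vec n : E k)‖) ≤
                  |θ + 1| * (2 * ‖(vec m - vec n : E k)‖) :=
                mul_le_mul_of_nonneg_right (le_abs_self _) hD.le
              have h8 : B ≤ (ht (a x m) + H) ^ 2 := by nlinarith
              have h9 : 0 ≤ ‖vec n + v - vec m‖ ^ 2 := by positivity
              linarith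
            linarith
        exact (continuousAt_const (y := (1 : ℝ))).congr ev
      · have hm' : 0 < a x0 m := lt_of_le_of_ne ((hC x0).nonneg m) (Ne.symm hm0)
        have evm : ∀ᶠ x in 𝓝 x0, 0 < a x m := continuousAt_const.eventually_lt
          (ha m).continuousAt hm'
        have hhtm : ContinuousAt (fun x => ht (a x m)) x0 := by
          unfold ht
          exact ((ha m).continuousAt.inv₀ hm0).sub continuousAt_const
        have h1 : ContinuousAt (fun x => clamp (marg (a x) H n m (vec n + v) - θ)) x0 := by
          apply clamp_continuous.continuousAt.comp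
          unfold marg
          exact (((continuousAt_const.add ((hhtm.add continuousAt_const).pow 2)).sub
            (continuousAt_const.add ((hhtn.add continuousAt_const).pow 2))).div_const _).sub
              continuousAt_const
        refine h1.congr ?_
        filter_upwards [evm] with x hx
        rw [if_neg hx.ne']
    refine key.congr ?_
    filter_upwards [evn] with x hx
    unfold wgt
    rw [if_neg (by push Not; exact ⟨hx.ne', hvΛ⟩)]

end Run7.h592.RT
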